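import Pool.Agent.Y744.PCR.Test

/-! # Division by the variable on the side of the frequencies

Multiplication of a band-limited function by `x` is the derivative of a band-limited function. -/

set_option autoImplicit false

open MeasureTheory Filter Topology Real
open scoped ContDiff

namespace Q241.HF

open Pool.Agent.Y744

/-- the integrals `∫_0^1 t^j g(tα) dt` -/
noncomputable def PI (j : ℕ) (g : ℝ → ℝ) (α : ℝ) : ℝ := ∫ t in (0:ℝ)..1, t ^ j * g (t * α)

lemma PI_cont (j : ℕ) {g : ℝ → ℝ} (hg : Continuous g) : Continuous (PI j g) := by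
  unfold PI
  exact intervalIntegral.continuous_parametric_intervalIntegral_of_continuous'
    (by fun_prop : Continuous (Function.uncurry fun α t : ℝ => t ^ j * g (t * α))) 0 1

lemma PI_deriv (j : ℕ) {g : ℝ → ℝ} (hg : ContDiff ℝ ∞ g) (α : ℝ) :
    HasDerivAt (PI j g) (PI (j + 1) (deriv g) α) α := by
  have hg0 : Continuous g := hg.continuous
  have hd : Differentiable ℝ g := hg.differentiable (by simp)
  have hc : Continuous (deriv g) := (TK.deriv_smooth hg).continuous
  obtain ⟨M, hM⟩ := (isCompact_Icc (a := -(|α| + 1)) (b := |α| + 1)).exists_bound_of_continuousOn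
    hc.continuousOn
  have key := intervalIntegral.hasDerivAt_integral_of_dominated_loc_of_deriv_le (μ := volume)
    (a := 0) (b := 1) (F := fun α t : ℝ => t ^ j * g (t * α))
    (F' := fun α t : ℝ => t ^ (j + 1) * deriv g (t * α)) (x₀ := α) (s := Metric.ball α 1)
    (bound := fun _ => M) (Metric.ball_mem_nhds α one_pos) ?_ ?_ ?_ ?_ ?_ ?_
  · exact key.2
  · exact Eventually.of_forall fun x =>
      (by fun_prop : Continuous fun t : ℝ => t ^ j * g (t * x)).aestronglyMeasurable
  · exact (by fun_prop : Continuous fun t : ℝ => t ^ j * g (t * α)).intervalIntegrable _ _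
  · exact (by fun_prop : Continuous fun t : ℝ => t ^ (j + 1) * deriv g (t * α)).aestronglyMeasurable
  · refine Eventually.of_forall fun t ht x hx => ?_
    rw [Set.uIoc_of_le zero_le_one] at ht
    rw [Metric.mem_ball, Real.dist_eq] at hx
    have h1 : |t * x| ≤ |α| + 1 := by
      rw [abs_mul, abs_of_pos ht.1]
      have h2 : |x| ≤ |α| + 1 := by
        have := abs_sub_abs_le_abs_sub x α
        linarith
      calc t * |x| ≤ 1 * |x| := mul_le_mul_of_nonneg_right ht.2 (abs_nonneg _)
        _ ≤ |α| + 1 := by linarith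
    have h2 := hM (t * x) (abs_le.1 h1)
    rw [norm_mul, Real.norm_eq_abs, abs_of_nonneg (pow_nonneg ht.1.le _)]
    calc t ^ (j + 1) * ‖deriv g (t * x)‖ ≤ 1 * ‖deriv g (t * x)‖ :=
          mul_le_mul_of_nonneg_right (pow_le_one₀ ht.1.le ht.2) (norm_nonneg _)
      _ ≤ M := by linarith
  · exact intervalIntegrable_const
  · refine Eventually.of_forall fun t _ x _ => ?_
    have h1 : HasDerivAt (fun x : ℝ => t * x) t x := by
      simpa using (hasDerivAt_id x).const_mul t
    have h2 := ((hd (t * x)).hasDerivAt.comp x h1).const_mul (t ^ j)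
    refine h2.congr_deriv ?_
    rw [pow_succ]
    ring

lemma PI_smooth (n : ℕ) : ∀ (j : ℕ) (g : ℝ → ℝ), ContDiff ℝ ∞ g → ContDiff ℝ n (PI j g) := by
  induction n with
  | zero =>
    intro j g hg
    exact contDiff_zero.2 (PI_cont j hg.continuous)
  | succ n ih =>
    intro j g hg
    have h1 : deriv (PI j g) = PI (j + 1) (deriv g) := funext fun α => (PI_deriv j hg α).deriv
    push_cast
    rw [contDiff_succ_iff_deriv]
    refine ⟨fun α => (PI_deriv j hg α).differentiableAt, fun h => ?_, ?_⟩
    · exact absurd h (by simp)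
    · rw [h1]
      exact ih (j + 1) _ (TK.deriv_smooth hg)

variable {κ : ℝ} {K : ℝ → ℝ}

/-- the quotient -/
noncomputable def LL (K : ℝ → ℝ) (α : ℝ) : ℝ := PI 0 (deriv (deriv K)) α / (4 * π ^ 2)

lemma deriv_odd (h : TK κ K) (x : ℝ) : deriv K (-x) = -deriv K x := by
  have h1 : (fun x => K (-x)) = K := funext h.even
  have h3 := deriv_comp_neg K x
  rw [h1] at h3
  rw [h3, neg_neg]

lemma LL_mul (h : TK κ K) (α : ℝ) : α * LL K α = deriv K α / (4 * π ^ 2) := by
  have hs1 := TK.deriv_smooth h.smooth
  have hs2 := TK.deriv_smooth hs1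
  have hd : Differentiable ℝ (deriv K) := hs1.differentiable (by simp)
  have h0 : deriv K 0 = 0 := by
    have := deriv_odd h 0
    rw [neg_zero] at this
    linarith
  have h1 : ∫ t in (0:ℝ)..1, α * deriv (deriv K) (t * α) = deriv K (1 * α) - deriv K (0 * α) := by
    have hk2 : Continuous (deriv (deriv K)) := hs2.continuous
    have hcc : Continuous fun t : ℝ => α * deriv (deriv K) (t * α) := by fun_prop
    refine intervalIntegral.integral_eq_sub_of_hasDerivAt (f := fun t => deriv K (t * α))
      (fun t _ => ?_) (hcc.intervalIntegrable _ _)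
    have h2 : HasDerivAt (fun t : ℝ => t * α) α t := by
      simpa using (hasDerivAt_id t).mul_const α
    have h3 := (hd (t * α)).hasDerivAt.comp t h2
    refine h3.congr_deriv ?_
    ring
  rw [intervalIntegral.integral_const_mul, one_mul, zero_mul, h0, sub_zero] at h1
  unfold LL PI
  simp only [pow_zero, one_mul]
  rw [← h1]
  ring

lemma LL_TK (h : TK κ K) : TK κ (LL K) where
  smooth := by
    have hs2 := TK.deriv_smooth (TK.deriv_smooth h.smooth)
    refine ContDiff.div_const ?_ _
    exact contDiff_infty.2 fun n => PI_smooth n 0 _ hs2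
  even := by
    intro x
    unfold LL PI
    congr 1
    refine intervalIntegral.integral_congr fun t _ => ?_
    have h2 : ∀ x, deriv (deriv K) (-x) = deriv (deriv K) x := by
      intro x
      have h5 : (fun x => deriv K (-x)) = fun x => -deriv K x := funext (deriv_odd h)
      have h6 := deriv_comp_neg (deriv K) x
      rw [h5, deriv.fun_neg] at h6
      linarith
    show t ^ 0 * deriv (deriv K) (t * (-x)) = t ^ 0 * deriv (deriv K) (t * x)
    rw [mul_neg, h2]
  supp := by
    intro x hx
    by_cases h0 : x = 0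
    · have hk : ∀ y, K y = 0 := fun y => by
        refine h.supp y ?_
        rw [h0, abs_zero] at hx
        exact hx.trans_le (abs_nonneg _)
      have hK : K = fun _ => 0 := funext hk
      unfold LL PI
      rw [hK]
      simp
    · have h1 := LL_mul h x
      rw [TK.deriv_supp h.supp x hx, zero_div] at h1
      exact (mul_eq_zero.1 h1).resolve_left h0

lemma ct_mul_x (h : TK κ K) (x : ℝ) :
    x * ct K x = -(1 / (2 * π)) * ∫ α, deriv K α * Real.sin (2 * π * x * α) := by
  have hd1 : Differentiable ℝ K := h.smooth.differentiable (by simp)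
  have hs1 := TK.deriv_smooth h.smooth
  have hc1 : HasCompactSupport (deriv K) := h.hcs.deriv
  have hk1 : Continuous (deriv K) := hs1.continuous
  set c : ℝ := 2 * π * x with hc
  have i1 : ∀ f : ℝ → ℝ, Continuous f → Integrable (fun α => K α * f α) := fun f hf => h.mul_int hf
  have i2 : ∀ f : ℝ → ℝ, Continuous f → Integrable (fun α => deriv K α * f α) := fun f hf =>
    (hk1.mul hf).integrable_of_hasCompactSupport hc1.mul_right
  have e1 : ∫ α, K α * (c * Real.cos (c * α)) = -∫ α, deriv K α * Real.sin (c * α) := by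
    refine integral_mul_deriv_eq_deriv_mul_of_integrable (u := K)
      (v := fun α => Real.sin (c * α)) (fun α _ => (hd1 α).hasDerivAt) (fun α _ => ?_)
      (i1 _ (by fun_prop)) (i2 _ (by fun_prop)) (i1 _ (by fun_prop))
    have := ((hasDerivAt_id α).const_mul c).sin
    simp only [id, mul_one] at this
    rw [mul_comm c]
    exact this
  have h4 : c * ct K x = ∫ α, K α * (c * Real.cos (c * α)) := by
    unfold ct
    rw [← integral_const_mul]
    refine integral_congr_ae (Eventually.of_forall fun α => ?_)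
    show c * (K α * Real.cos (c * α)) = _
    ring
  have hp := Real.pi_pos
  have h5 : x * ct K x = 1 / (2 * π) * (c * ct K x) := by
    rw [hc]
    field_simp
  rw [h5, h4, e1]
  ring

lemma ct_LL_deriv (h : TK κ K) (x : ℝ) : HasDerivAt (ct (LL K)) (x * ct K x) x := by
  have hL := LL_TK h
  have hb : Integrable fun α => |LL K α * (2 * π * α)| := (hL.mul_int (by fun_prop)).abs
  have key := hasDerivAt_integral_of_dominated_loc_of_deriv_le (μ := volume)
    (F := fun x α : ℝ => LL K α * Real.cos (2 * π * x * α))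
    (F' := fun x α : ℝ => LL K α * (-(2 * π * α) * Real.sin (2 * π * x * α))) (x₀ := x)
    (s := Set.univ) (bound := fun α => |LL K α * (2 * π * α)|) univ_mem ?_ ?_ ?_ ?_ hb ?_
  · refine key.2.congr_deriv ?_
    rw [ct_mul_x h, ← integral_const_mul]
    refine integral_congr_ae (Eventually.of_forall fun α => ?_)
    have h1 := LL_mul h α
    have hp := Real.pi_pos
    show LL K α * (-(2 * π * α) * Real.sin (2 * π * x * α)) =
      -(1 / (2 * π)) * (deriv K α * Real.sin (2 * π * x * α))
    have h2 : deriv K α = 4 * π ^ 2 * (α * LL K α) := by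
      rw [h1]
      field_simp
    rw [h2]
    field_simp
    ring
  · exact Eventually.of_forall fun y => (hL.mul_int (by fun_prop)).aestronglyMeasurable
  · exact hL.mul_int (by fun_prop)
  · exact (hL.mul_int (by fun_prop)).aestronglyMeasurable
  · refine Eventually.of_forall fun α y _ => ?_
    rw [Real.norm_eq_abs, abs_mul, abs_mul, abs_mul (LL K α), abs_neg]
    refine mul_le_mul_of_nonneg_left ?_ (abs_nonneg _)
    exact mul_le_of_le_one_right (abs_nonneg _) (Real.abs_sin_le_one _)
  · refine Eventually.of_forall fun α y _ => ?_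
    have h1 : HasDerivAt (fun y : ℝ => 2 * π * y * α) (2 * π * α) y := by
      have := ((hasDerivAt_id y).const_mul (2 * π)).mul_const α
      simpa using this
    have h2 := (h1.cos).const_mul (LL K α)
    refine h2.congr_deriv ?_
    ring

/-- `E` annihilates the functions `x ↦ x (ct K) x` -/
lemma mul_annih (hK : TK κ K) {E : ℝ → ℝ} (hE : Measurable E) {B : ℝ}
    (hB : ∀ x, |E x| ≤ B * (1 + x ^ 2))
    (h0 : ∀ L, TK κ L → ∀ h, 0 < h → ∫ y, E y * (ct L (y + h) - ct L (y - h)) = 0) :
    ∫ y, (y * E y) * ct K y = 0 := by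
  have hL := LL_TK hK
  set L := LL K with hLd
  have hB0 : 0 ≤ B := by
    have := (abs_nonneg _).trans (hB 0)
    simpa using this
  obtain ⟨D, hD0, hD⟩ := hK.decay 3
  obtain ⟨D', hD'0, hD'⟩ := hL.decay 2
  have hq : ∀ z : ℝ, |z * ct K z| ≤ D / (1 + z ^ 2) ^ 2 := by
    intro z
    have h1 : 0 < 1 + z ^ 2 := by positivity
    have h2 : |z| ≤ 1 + z ^ 2 := by
      have := sq_abs z
      nlinarith [sq_nonneg (|z| - 1), abs_nonneg z]
    rw [abs_mul]
    calc |z| * |ct K z| ≤ (1 + z ^ 2) * (D / (1 + z ^ 2) ^ 3) :=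
          mul_le_mul h2 (hD z) (abs_nonneg _) h1.le
      _ = D / (1 + z ^ 2) ^ 2 := by field_simp
  have hsh : ∀ y h : ℝ, |h| ≤ 1 → 1 / (1 + (y + h) ^ 2) ^ 2 ≤ 16 / (1 + y ^ 2) ^ 2 := by
    intro y h hh
    have h1 : h ^ 2 ≤ 1 := by
      rw [← sq_abs]
      exact pow_le_one₀ (abs_nonneg _) hh
    have h2 : 1 + y ^ 2 ≤ 4 * (1 + (y + h) ^ 2) := by
      nlinarith [sq_nonneg (y + h + h), sq_nonneg (y + 2 * h), sq_nonneg h, sq_nonneg (y + h)]
    rw [div_le_div_iff₀ (by positivity) (by positivity), one_mul]
    calc (1 + y ^ 2) ^ 2 ≤ (4 * (1 + (y + h) ^ 2)) ^ 2 := pow_le_pow_left₀ (by positivity) h2 2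
      _ = 16 * (1 + (y + h) ^ 2) ^ 2 := by ring
  set φ : ℝ → ℝ := fun h => ∫ y, E y * (ct L (y + h) - ct L (y - h)) with hφ
  have hφ0 : ∀ h, φ h = 0 := by
    intro h
    rcases lt_trichotomy h 0 with hh | hh | hh
    · have h1 := h0 L hL (-h) (by linarith)
      simp only [hφ]
      have h2 : ∫ y, E y * (ct L (y + h) - ct L (y - h)) =
          -∫ y, E y * (ct L (y + -h) - ct L (y - -h)) := by
        rw [← integral_neg]
        refine integral_congr_ae (Eventually.of_forall fun y => ?_)
        show E y * (ct L (y + h) - ct L (y - h)) = -(E y * (ct L (y + -h) - ct L (y - -h)))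
        rw [← sub_eq_add_neg, sub_neg_eq_add]
        ring
      rw [h2, h1, neg_zero]
    · simp only [hφ, hh, add_zero, sub_zero, sub_self, mul_zero, integral_zero]
    · exact h0 L hL h hh
  have hbi : Integrable fun y : ℝ => 32 * B * D * (1 + y ^ 2)⁻¹ :=
    integrable_inv_one_add_sq.const_mul _
  have hmeasL : ∀ h : ℝ, Measurable fun y => E y * (ct L (y + h) - ct L (y - h)) := fun h =>
    hE.mul ((hL.ct_cont.measurable.comp (by fun_prop)).sub (hL.ct_cont.measurable.comp (by fun_prop)))
  have hmeasK : ∀ h : ℝ, Measurable fun y =>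
      E y * ((y + h) * ct K (y + h) + (y - h) * ct K (y - h)) := fun h =>
    hE.mul (((by fun_prop : Measurable fun y : ℝ => y + h).mul
      (hK.ct_cont.measurable.comp (by fun_prop))).add
      ((by fun_prop : Measurable fun y : ℝ => y - h).mul (hK.ct_cont.measurable.comp (by fun_prop))))
  have key := hasDerivAt_integral_of_dominated_loc_of_deriv_le (μ := volume)
    (F := fun h y : ℝ => E y * (ct L (y + h) - ct L (y - h)))
    (F' := fun h y : ℝ => E y * ((y + h) * ct K (y + h) + (y - h) * ct K (y - h))) (x₀ := 0)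
    (s := Metric.ball (0 : ℝ) 1) (bound := fun y => 32 * B * D * (1 + y ^ 2)⁻¹)
    (Metric.ball_mem_nhds 0 one_pos) ?_ ?_ ?_ ?_ hbi ?_
  · have h1 : HasDerivAt φ (∫ y, E y * ((y + 0) * ct K (y + 0) + (y - 0) * ct K (y - 0))) 0 := key.2
    have h2 : HasDerivAt φ 0 0 := by
      have : φ = fun _ => 0 := funext hφ0
      rw [this]
      exact hasDerivAt_const _ _
    have h3 := h1.unique h2
    have h4 : ∫ y, E y * ((y + 0) * ct K (y + 0) + (y - 0) * ct K (y - 0)) =
        2 * ∫ y, (y * E y) * ct K y := by
      rw [← integral_const_mul]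
      refine integral_congr_ae (Eventually.of_forall fun y => ?_)
      show E y * ((y + 0) * ct K (y + 0) + (y - 0) * ct K (y - 0)) = 2 * ((y * E y) * ct K y)
      rw [add_zero, sub_zero]
      ring
    rw [h4] at h3
    linarith
  · exact Eventually.of_forall fun h => (hmeasL h).aestronglyMeasurable
  · have : (fun y => E y * (ct L (y + 0) - ct L (y - 0))) = fun _ => 0 := by
      funext y
      rw [add_zero, sub_zero, sub_self, mul_zero]
    rw [this]
    exact integrable_zero _ _ _
  · exact (hmeasK 0).aestronglyMeasurable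
  · refine Eventually.of_forall fun y h hh => ?_
    rw [Metric.mem_ball, Real.dist_eq, sub_zero] at hh
    have hy : 0 < 1 + y ^ 2 := by positivity
    have a1 : |(y + h) * ct K (y + h)| ≤ D * (16 / (1 + y ^ 2) ^ 2) := by
      refine (hq (y + h)).trans ?_
      rw [div_eq_mul_one_div]
      exact mul_le_mul_of_nonneg_left (hsh y h hh.le) hD0
    have a2 : |(y - h) * ct K (y - h)| ≤ D * (16 / (1 + y ^ 2) ^ 2) := by
      refine (hq (y - h)).trans ?_
      rw [div_eq_mul_one_div, sub_eq_add_neg]
      exact mul_le_mul_of_nonneg_left (hsh y (-h) (by rw [abs_neg]; exact hh.le)) hD0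
    rw [Real.norm_eq_abs, abs_mul]
    have a3 : |(y + h) * ct K (y + h) + (y - h) * ct K (y - h)| ≤
        2 * (D * (16 / (1 + y ^ 2) ^ 2)) := by
      refine (abs_add_le _ _).trans ?_
      linarith
    calc |E y| * |(y + h) * ct K (y + h) + (y - h) * ct K (y - h)| ≤
          (B * (1 + y ^ 2)) * (2 * (D * (16 / (1 + y ^ 2) ^ 2))) :=
          mul_le_mul (hB y) a3 (abs_nonneg _) (by positivity)
      _ = 32 * B * D * (1 + y ^ 2)⁻¹ := by
          field_simp
          ring
  · refine Eventually.of_forall fun y h _ => ?_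
    have b1 : HasDerivAt (fun h : ℝ => y + h) 1 h := by
      simpa using (hasDerivAt_id h).const_add y
    have b2 : HasDerivAt (fun h : ℝ => y - h) (-1) h := by
      simpa using (hasDerivAt_id h).const_sub y
    have b3 := ((ct_LL_deriv hK (y + h)).comp h b1).sub ((ct_LL_deriv hK (y - h)).comp h b2)
    have b4 := b3.const_mul (E y)
    refine b4.congr_deriv ?_
    ring

end Q241.HF
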