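import Pool.Agent.Y744.PCR.Abs
import Pool.Agent.Q241.HF.Div

/-! # Abstract rigidity: one-sided cumulative bounds with exponentially small loss -/

set_option autoImplicit false

open MeasureTheory Filter Topology Real

namespace Q241.HF

open Pool.Agent.Y744

section

variable {A' : ℝ → ℝ} {C0 κ : ℝ}

lemma AG_lin (x : ℝ) : |AG x| ≤ 2 * (1 + |x|) := by
  unfold AG
  split_ifs with h
  · rw [abs_zero]
    positivity
  · push Not at h
    have h1 := gp_le h
    have h2 := gp_nonneg h
    rw [abs_of_nonneg (by linarith), abs_of_nonneg h]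
    linarith

lemma dE_lin (hb : ∀ y, |A' y| ≤ C0 * (1 + |y|)) (x : ℝ) :
    |dE A' x| ≤ (2 * C0 + 4) * (1 + |x|) := by
  unfold dE
  have h1 := hb x
  have h2 := hb (-x)
  have h3 := AG_lin x
  have h4 := AG_lin (-x)
  rw [abs_neg] at h2 h4
  have e : A' x - AG x - (A' (-x) - AG (-x)) = A' x + -AG x + (-A' (-x) + AG (-x)) := by ring
  rw [e]
  refine (abs_add_le _ _).trans ((add_le_add (abs_add_le _ _) (abs_add_le _ _)).trans ?_)
  rw [abs_neg, abs_neg]
  linarith

/-- the discrepancy annihilates the differences of band-limited functions -/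
lemma annih' {K : ℝ → ℝ} (hK : TK κ K) (hA' : Monotone A')
    (hb : ∀ y, |A' y| ≤ C0 * (1 + y ^ 2)) (h : ℝ)
    (hm : ∫ y, A' y * (ct K (y + h) - ct K (y - h)) = ∫ y, AG y * (ct K (y + h) - ct K (y - h))) :
    ∫ y, dE A' y * (ct K (y + h) - ct K (y - h)) = 0 := by
  have hEm := dE_meas hA'
  have hEb := dE_bound hb
  have i1 : ∀ h, Integrable fun y => dE A' y * ct K (y + h) := fun h => test_int hK hEm hEb h
  have e1 : ∀ h, ∫ y, dE A' (y + h) * ct K y = ∫ y, dE A' y * ct K (y - h) := by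
    intro h
    have := integral_add_right_eq_self (μ := volume) (fun y => dE A' y * ct K (y - h)) h
    rw [← this]
    refine integral_congr_ae (Eventually.of_forall fun y => ?_)
    show dE A' (y + h) * ct K y = dE A' (y + h) * ct K (y + h - h)
    rw [add_sub_cancel_right]
  have i2 : ∀ h, Integrable fun y => dE A' (y + h) * ct K y := by
    intro h
    have := (i1 (-h)).comp_add_right h
    refine this.congr (Eventually.of_forall fun y => ?_)
    show dE A' (y + h) * ct K (y + h + -h) = dE A' (y + h) * ct K y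
    rw [add_neg_cancel_right]
  have h0 := annih hK hA' hb h hm
  have h1 : ∫ y, (dE A' (y + h) - dE A' (y - h)) * ct K y =
      (∫ y, dE A' (y + h) * ct K y) - ∫ y, dE A' (y + -h) * ct K y := by
    rw [← integral_sub (i2 h) (i2 (-h))]
    refine integral_congr_ae (Eventually.of_forall fun y => ?_)
    show (dE A' (y + h) - dE A' (y - h)) * ct K y = dE A' (y + h) * ct K y -
      dE A' (y + -h) * ct K y
    rw [← sub_eq_add_neg]
    ring
  rw [h1, e1, e1] at h0
  have h2 : ∫ y, dE A' y * (ct K (y + h) - ct K (y - h)) =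
      (∫ y, dE A' y * ct K (y + h)) - ∫ y, dE A' y * ct K (y + -h) := by
    rw [← integral_sub (i1 h) (i1 (-h))]
    refine integral_congr_ae (Eventually.of_forall fun y => ?_)
    show dE A' y * (ct K (y + h) - ct K (y - h)) = dE A' y * ct K (y + h) -
      dE A' y * ct K (y + -h)
    rw [← sub_eq_add_neg]
    ring
  rw [h2]
  simp only [sub_neg_eq_add, ← sub_eq_add_neg] at h0 ⊢
  linarith

lemma zeroE (hκ : 0 < κ) (hA' : Monotone A')
    (hneg : ∀ y, y < 0 → A' y = 0) (hb : ∀ y, |A' y| ≤ C0 * (1 + |y|))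
    (hm : ∀ K, TK κ K → ∀ h, 0 < h →
      ∫ y, A' y * (ct K (y + h) - ct K (y - h)) = ∫ y, AG y * (ct K (y + h) - ct K (y - h)))
    {s C c a0 : ℝ} (hs : s = 1 ∨ s = -1) (hC : 0 ≤ C) (hc : 0 < c) (ha0 : 0 < a0)
    (hyp : ∀ a, a0 ≤ a → -(C * Real.exp (-(c * a))) ≤ s * (A' a - AG a)) :
    ∀ᵐ x, dE A' x = 0 := by
  have hC0 : 0 ≤ C0 := by
    have := (abs_nonneg _).trans (hb 0)
    simpa using this
  have hb2 : ∀ y, |A' y| ≤ (2 * C0) * (1 + y ^ 2) := by
    intro y
    refine (hb y).trans ?_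
    have h1 : 1 + |y| ≤ 2 * (1 + y ^ 2) := by
      have := sq_abs y
      nlinarith [sq_nonneg (|y| - 1), abs_nonneg y]
    nlinarith
  have hEm := dE_meas hA'
  have hEb := dE_lin hb
  have hs1 : |s| = 1 := by rcases hs with rfl | rfl <;> simp
  have hs0 : s ≠ 0 := by rcases hs with rfl | rfl <;> norm_num
  set H : ℝ → ℝ := fun y => s * (y * dE A' y) with hH
  have hHm : Measurable H := measurable_const.mul (measurable_id.mul hEm)
  have hHe : ∀ y, H (-y) = H y := by
    intro y
    simp only [hH]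
    rw [dE_odd]
    ring
  set B : ℝ := 2 * (2 * C0 + 4) with hB
  have hB0 : 0 ≤ B := by rw [hB]; positivity
  have hHb : ∀ y, |H y| ≤ B * (1 + y ^ 2) := by
    intro y
    simp only [hH]
    rw [abs_mul, hs1, one_mul, abs_mul]
    have h1 : |y| * (1 + |y|) ≤ 2 * (1 + y ^ 2) := by
      have := sq_abs y
      nlinarith [sq_nonneg (|y| - 1), abs_nonneg y]
    calc |y| * |dE A' y| ≤ |y| * ((2 * C0 + 4) * (1 + |y|)) :=
          mul_le_mul_of_nonneg_left (hEb y) (abs_nonneg _)
      _ = (2 * C0 + 4) * (|y| * (1 + |y|)) := by ring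
      _ ≤ (2 * C0 + 4) * (2 * (1 + y ^ 2)) := mul_le_mul_of_nonneg_left h1 (by positivity)
      _ = B * (1 + y ^ 2) := by rw [hB]; ring
  set C1 : ℝ := 2 * C / c + B * (1 + a0 ^ 2) * Real.exp (c / 2 * a0) with hC1
  have hC10 : 0 ≤ C1 := by rw [hC1]; positivity
  have hlow : ∀ᵐ y, -(C1 * Real.exp (-(c / 2 * |y|))) ≤ H y := by
    refine Eventually.of_forall fun y => ?_
    by_cases hy : a0 ≤ |y|
    · have hy0 : 0 < |y| := ha0.trans_le hy
      have h1 := hyp |y| hy
      have h2 : H y = |y| * (s * (A' |y| - AG |y|)) := by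
        have h3 : H y = H |y| := by
          rcases abs_cases y with ⟨h, _⟩ | ⟨h, _⟩
          · rw [h]
          · rw [h, hHe]
        rw [h3]
        simp only [hH]
        rw [dE_pos hneg hy0]
        ring
      rw [h2]
      have h3 : |y| * (C * Real.exp (-(c * |y|))) ≤ C1 * Real.exp (-(c / 2 * |y|)) := by
        have e1 : Real.exp (-(c * |y|)) = Real.exp (-(c / 2 * |y|)) * Real.exp (-(c / 2 * |y|)) := by
          rw [← Real.exp_add]
          congr 1
          ring
        have e2 : |y| * Real.exp (-(c / 2 * |y|)) ≤ 2 / c := by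
          have h4 := Real.add_one_le_exp (c / 2 * |y|)
          rw [Real.exp_neg, ← div_eq_mul_inv, div_le_div_iff₀ (Real.exp_pos _) hc]
          nlinarith
        rw [e1]
        have h5 : 0 ≤ C * Real.exp (-(c / 2 * |y|)) := by positivity
        have h6 := mul_le_mul_of_nonneg_right e2 h5
        have h7 : 0 ≤ B * (1 + a0 ^ 2) * Real.exp (c / 2 * a0) * Real.exp (-(c / 2 * |y|)) := by
          positivity
        calc |y| * (C * (Real.exp (-(c / 2 * |y|)) * Real.exp (-(c / 2 * |y|)))) =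
            |y| * Real.exp (-(c / 2 * |y|)) * (C * Real.exp (-(c / 2 * |y|))) := by ring
          _ ≤ 2 / c * (C * Real.exp (-(c / 2 * |y|))) := h6
          _ ≤ C1 * Real.exp (-(c / 2 * |y|)) := by
              rw [hC1]
              have : 2 / c * (C * Real.exp (-(c / 2 * |y|))) =
                2 * C / c * Real.exp (-(c / 2 * |y|)) := by ring
              rw [this]
              linarith
      have h4 := mul_le_mul_of_nonneg_left h1 hy0.le
      linarith
    · push Not at hy
      have h1 := neg_abs_le (H y)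
      have h2 := hHb y
      have h3 : B * (1 + y ^ 2) ≤ B * (1 + a0 ^ 2) := by
        refine mul_le_mul_of_nonneg_left ?_ hB0
        have : y ^ 2 ≤ a0 ^ 2 := by
          rw [← sq_abs]
          exact pow_le_pow_left₀ (abs_nonneg _) hy.le 2
        linarith
      have h4 : 1 ≤ Real.exp (c / 2 * a0) * Real.exp (-(c / 2 * |y|)) := by
        rw [← Real.exp_add]
        refine Real.one_le_exp ?_
        nlinarith
      have h5 : B * (1 + a0 ^ 2) ≤ C1 * Real.exp (-(c / 2 * |y|)) := by
        rw [hC1]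
        have h6 : 0 ≤ 2 * C / c * Real.exp (-(c / 2 * |y|)) := by positivity
        have h7 : B * (1 + a0 ^ 2) * 1 ≤ B * (1 + a0 ^ 2) * (Real.exp (c / 2 * a0) *
            Real.exp (-(c / 2 * |y|))) := mul_le_mul_of_nonneg_left h4 (by positivity)
        nlinarith
      linarith
  have hz : ∀ K, TK κ K → ∫ y, H y * ct K y = 0 := by
    intro K hK
    have h1 := mul_annih hK hEm (dE_bound hb2) fun L hL h hh => annih' hL hA' hb2 h (hm L hL h hh)
    have h2 : ∫ y, H y * ct K y = s * ∫ y, (y * dE A' y) * ct K y := by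
      rw [← integral_const_mul]
      refine integral_congr_ae (Eventually.of_forall fun y => ?_)
      show s * (y * dE A' y) * ct K y = _
      ring
    rw [h2, h1, mul_zero]
  have hfin := high_pass hκ hHm hHe hHb hC10 (by positivity : 0 < c / 2) hlow hz
  have hne : ∀ᵐ x : ℝ, x ≠ 0 := by
    rw [ae_iff]
    simp
  filter_upwards [hfin, hne] with y hy hy0
  have h1 := (mul_eq_zero.1 hy).resolve_left hs0
  exact (mul_eq_zero.1 h1).resolve_left hy0

end

theorem rigidC {A : ℝ → ℝ → ℝ} {T0 C0 κ : ℝ} (hκ : 0 < κ) (hmono : ∀ T, T0 ≤ T → Monotone (A T))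
    (hneg : ∀ T y, y < 0 → A T y = 0) (hb : ∀ T, T0 ≤ T → ∀ y, |A T y| ≤ C0 * (1 + |y|))
    (hdiag : ∀ ε, 0 < ε → ∀ᶠ T in atTop, 1 - ε ≤ A T 0)
    (hmont : ∀ K, TK κ K → ∀ h, 0 < h →
      Tendsto (fun T => ∫ y, A T y * (ct K (y + h) - ct K (y - h))) atTop
        (𝓝 (∫ y, AG y * (ct K (y + h) - ct K (y - h)))))
    {l : Filter ℝ} (hl : l ≤ atTop) {s C c a0 : ℝ} (hs : s = 1 ∨ s = -1)
    (hC : 0 ≤ C) (hc : 0 < c) (ha0 : 0 < a0)
    (hyp : ∀ a, a0 ≤ a → ∀ ε, 0 < ε → ∀ᶠ T in l,
      -(C * Real.exp (-(c * a))) - ε ≤ s * (A T a - (1 + 2 * gp a))) :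
    ∀ x, Tendsto (fun T => A T x) l (𝓝 (AG x)) := by
  intro x
  rw [tendsto_iff_ultrafilter]
  intro g hg
  have hgt : (g : Filter ℝ) ≤ atTop := hg.trans hl
  have hT : ∀ᶠ T in (g : Filter ℝ), T0 ≤ T := hgt (eventually_ge_atTop _)
  have hC0 : 0 ≤ C0 := by
    have := (abs_nonneg _).trans (hb T0 le_rfl 0)
    simpa using this
  have hb2 : ∀ T, T0 ≤ T → ∀ y, |A T y| ≤ (2 * C0) * (1 + y ^ 2) := by
    intro T hT y
    refine (hb T hT y).trans ?_
    have h1 : 1 + |y| ≤ 2 * (1 + y ^ 2) := by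
      have := sq_abs y
      nlinarith [sq_nonneg (|y| - 1), abs_nonneg y]
    nlinarith
  have hex : ∀ y, ∃ L, Tendsto (fun T => A T y) (g : Filter ℝ) (𝓝 L) := by
    intro y
    have h1 : ((g.map fun T => A T y : Ultrafilter ℝ) : Filter ℝ) ≤
        𝓟 (Set.Icc (-(C0 * (1 + |y|))) (C0 * (1 + |y|))) := by
      rw [le_principal_iff]
      have h2 : ∀ᶠ T in (g : Filter ℝ), A T y ∈
          Set.Icc (-(C0 * (1 + |y|))) (C0 * (1 + |y|)) := by
        filter_upwards [hT] with T hT1
        exact abs_le.1 (hb T hT1 y)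
      exact h2
    obtain ⟨L, _, hL⟩ := isCompact_Icc.ultrafilter_le_nhds _ h1
    exact ⟨L, hL⟩
  choose A' hlim using hex
  have hA' : Monotone A' := by
    intro a b hab
    refine le_of_tendsto_of_tendsto (hlim a) (hlim b) ?_
    filter_upwards [hT] with T hT1 using hmono T hT1 hab
  have hneg' : ∀ y, y < 0 → A' y = 0 := by
    intro y hy
    refine tendsto_nhds_unique (hlim y) ?_
    have : (fun T => A T y) = fun _ => 0 := funext fun T => hneg T y hy
    rw [this]
    exact tendsto_const_nhds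
  have hb' : ∀ y, |A' y| ≤ C0 * (1 + |y|) := by
    intro y
    refine le_of_tendsto (hlim y).abs ?_
    filter_upwards [hT] with T hT1 using hb T hT1 y
  have h0 : 1 ≤ A' 0 := by
    refine le_of_forall_pos_le_add fun ε hε => ?_
    have h1 : ∀ᶠ T in (g : Filter ℝ), 1 - ε ≤ A T 0 := hgt (hdiag ε hε)
    have := ge_of_tendsto (hlim 0) h1
    linarith
  have hm : ∀ K, TK κ K → ∀ h, 0 < h →
      ∫ y, A' y * (ct K (y + h) - ct K (y - h)) = ∫ y, AG y * (ct K (y + h) - ct K (y - h)) := by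
    intro K hK h hh
    obtain ⟨D, hD⟩ := test_decay hK h
    refine lim_int hmono hb2 ?_ hD (hmont K hK h hh) hgt hA' hlim
    exact (hK.ct_cont.measurable.comp (by fun_prop)).sub (hK.ct_cont.measurable.comp (by fun_prop))
  have hc1 : ∀ a, a0 ≤ a → -(C * Real.exp (-(c * a))) ≤ s * (A' a - AG a) := by
    intro a ha
    have hapos : 0 < a := ha0.trans_le ha
    refine le_of_forall_pos_le_add fun ε hε => ?_
    have h1 : Tendsto (fun T => s * (A T a - (1 + 2 * gp a))) (g : Filter ℝ)
        (𝓝 (s * (A' a - (1 + 2 * gp a)))) := ((hlim a).sub_const _).const_mul _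
    have h2 := ge_of_tendsto h1 (hg (hyp a ha ε hε))
    unfold AG
    rw [if_neg (by linarith)]
    linarith
  have hz := zeroE hκ hA' hneg' hb' hm hs hC hc ha0 hc1
  have hb2' : ∀ y, |A' y| ≤ (2 * C0) * (1 + y ^ 2) := by
    intro y
    refine (hb' y).trans ?_
    have h1 : 1 + |y| ≤ 2 * (1 + y ^ 2) := by
      have := sq_abs y
      nlinarith [sq_nonneg (|y| - 1), abs_nonneg y]
    nlinarith
  have per : ∀ ℓ : ℝ, ∀ᵐ x, dE A' (x + ℓ) = dE A' x := by
    intro ℓ
    have h2 := (measurePreserving_add_right (volume : Measure ℝ) ℓ).quasiMeasurePreserving.ae hz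
    filter_upwards [hz, h2] with x hx1 hx2
    rw [hx1]
    exact hx2
  have hirr : Irrational (Real.sqrt 2 / 1) := by
    rw [div_one]
    exact irrational_sqrt_two
  have := limit_eq hA' hneg' hb2' h0 hirr (per _) (per _) x
  rw [← this]
  exact hlim x

end Q241.HF
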