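import Pool.Agent.Q241.OP.Clo2
import Pool.Agent.Q241.HF.Abs

/-! # Linear growth of the pair counting function, and cumulative rigidity for the zeros of zeta -/

set_option autoImplicit false

open MeasureTheory Filter Topology Set

namespace Q241.HF

open H370 TH803TW Pool.Agent.Y744 Q241.OP
open Pool.Agent.Y750.OM (NO bl)
open Pool.Agent.Results.MP_103a5c_nt.BohrSetPairs (mont)

lemma PC_lin {T : ℝ} (hT : 20 ≤ T) {y : ℝ} (hy : 0 ≤ y) :
    PC T {x | |x| ≤ y} ≤ 13 * (1 + y) * PP1 (Zt T) mz (fun s => s.im) (Real.log T) := by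
  classical
  have hL : 0 < Real.log T := Real.log_pos (by linarith)
  have hpi := Real.pi_pos
  have hpi4 := Real.pi_lt_d2
  set L := Real.log T with hLd
  set K : ℤ := ⌈2 * Real.pi * y⌉ + 1 with hK
  have hKr : (K : ℝ) ≤ 2 * Real.pi * y + 2 := by
    rw [hK]
    push_cast
    linarith [(Int.ceil_lt_add_one (2 * Real.pi * y)).le]
  have hK0 : 0 ≤ K := by
    have : (0 : ℤ) ≤ ⌈2 * Real.pi * y⌉ := Int.ceil_nonneg (by positivity)
    omega
  have hP0 := PP1_nonneg (x := fun s : ℂ => s.im) (Zt T) mz_nonneg L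
  have h1 : ∀ s s' : ℂ, Set.indicator {x : ℝ | |x| ≤ y} (fun _ => (1 : ℝ)) (dd T s s') ≤
      ∑ k ∈ Finset.Icc (-K) K, (if ⌊s'.im * L⌋ - ⌊s.im * L⌋ = k then (1 : ℝ) else 0) := by
    intro s s'
    rw [Finset.sum_ite_eq]
    by_cases hx : |dd T s s'| ≤ y
    · rw [Set.indicator_of_mem (show dd T s s' ∈ {x : ℝ | |x| ≤ y} from hx), if_pos]
      unfold dd at hx
      rw [abs_div, abs_of_pos (by positivity : (0:ℝ) < 2 * Real.pi), div_le_iff₀ (by positivity),
        sub_mul, abs_le] at hx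
      have f1 := Int.floor_le (s'.im * L)
      have f2 := Int.lt_floor_add_one (s'.im * L)
      have f3 := Int.floor_le (s.im * L)
      have f4 := Int.lt_floor_add_one (s.im * L)
      have f5 := Int.le_ceil (2 * Real.pi * y)
      rw [Finset.mem_Icc]
      constructor
      · have : (-(K : ℝ)) < ⌊s'.im * L⌋ - ⌊s.im * L⌋ + 1 := by
          rw [hK]
          push_cast
          linarith [hx.2]
        have h2 : -K < ⌊s'.im * L⌋ - ⌊s.im * L⌋ + 1 := by exact_mod_cast this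
        omega
      · have : (⌊s'.im * L⌋ : ℝ) - ⌊s.im * L⌋ < (K : ℝ) + 1 := by
          rw [hK]
          push_cast
          linarith [hx.1]
        have h2 : ⌊s'.im * L⌋ - ⌊s.im * L⌋ < K + 1 := by exact_mod_cast this
        omega
    · rw [Set.indicator_of_notMem (show dd T s s' ∉ {x : ℝ | |x| ≤ y} from hx)]
      split_ifs <;> norm_num
  unfold PC
  calc ∑ s ∈ Zt T, ∑ s' ∈ Zt T, mz s * mz s' *
        Set.indicator {x : ℝ | |x| ≤ y} (fun _ => (1 : ℝ)) (dd T s s') ≤
      ∑ s ∈ Zt T, ∑ s' ∈ Zt T, ∑ k ∈ Finset.Icc (-K) K,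
        (if ⌊s'.im * L⌋ - ⌊s.im * L⌋ = k then mz s * mz s' else 0) := by
        refine Finset.sum_le_sum fun s _ => Finset.sum_le_sum fun s' _ => ?_
        have h2 := mul_le_mul_of_nonneg_left (h1 s s') (mul_nonneg (mz_nonneg s) (mz_nonneg s'))
        refine h2.trans (le_of_eq ?_)
        rw [Finset.mul_sum]
        refine Finset.sum_congr rfl fun k _ => ?_
        rw [mul_ite, mul_one, mul_zero]
    _ = ∑ k ∈ Finset.Icc (-K) K, ∑ s ∈ Zt T, ∑ s' ∈ Zt T,
        (if ⌊s'.im * L⌋ - ⌊s.im * L⌋ = k then mz s * mz s' else 0) := by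
        rw [Finset.sum_comm' (s := Finset.Icc (-K) K) (t := fun _ => Zt T) (t' := Zt T)
          (s' := fun _ => Finset.Icc (-K) K) (by simp [and_comm])]
        refine Finset.sum_congr rfl fun s _ => ?_
        rw [Finset.sum_comm]
    _ ≤ ∑ k ∈ Finset.Icc (-K) K, PP1 (Zt T) mz (fun s => s.im) L := by
        refine Finset.sum_le_sum fun k _ => ?_
        have h2 := cell_shift (x := fun s : ℂ => s.im) (Zt T) (Zt T) mz_nonneg hL k one_pos
        refine h2.trans (le_of_eq ?_)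
        ring
    _ = (2 * K + 1 : ℝ) * PP1 (Zt T) mz (fun s => s.im) L := by
        rw [Finset.sum_const, Int.card_Icc, nsmul_eq_mul]
        congr 1
        have h3 : ((K + 1 - -K).toNat : ℤ) = K + 1 - -K := Int.toNat_of_nonneg (by omega)
        have h4 : (((K + 1 - -K).toNat : ℕ) : ℝ) = (((K + 1 - -K).toNat : ℤ) : ℝ) := by push_cast; rfl
        rw [h4, h3]
        push_cast
        ring
    _ ≤ 13 * (1 + y) * PP1 (Zt T) mz (fun s => s.im) L := by
        refine mul_le_mul_of_nonneg_right ?_ hP0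
        nlinarith

/-- linear growth -/
lemma Aa_linU : ∃ C0 T0 : ℝ, 20 ≤ T0 ∧ ∀ T : ℝ, T0 ≤ T → ∀ y, |Aa T y| ≤ C0 * (1 + |y|) := by
  obtain ⟨C, B0, V0, hC, hB0, hV0, hblk, hloc⟩ := PPB
  have hpi := Real.pi_pos
  refine ⟨13 * (B0 + C) * (2 * Real.pi), V0, hV0, fun T hT y => ?_⟩
  have hT20 : 20 ≤ T := hV0.trans hT
  have hX := Xf_pos (V := T) (by linarith)
  have hL1 : 1 ≤ Real.log T := by
    rw [Real.le_log_iff_exp_le (by linarith)]
    linarith [Real.exp_one_lt_d9]
  rcases lt_or_ge y 0 with hy | hy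
  · rw [Aa_neg T y hy, abs_zero]
    positivity
  · unfold Aa
    rw [abs_of_nonneg (mul_nonneg (inv_nonneg.2 hX.le) (PC_nonneg _ _)), inv_mul_le_iff₀ hX,
      abs_of_nonneg hy]
    have h3 := hloc T hT (Real.log T) le_rfl
    have h4 : B0 ≤ B0 * (T * Real.log T) := by
      have : 1 ≤ T * Real.log T := by nlinarith
      nlinarith
    calc PC T {x | |x| ≤ y} ≤ 13 * (1 + y) * PP1 (Zt T) mz (fun s => s.im) (Real.log T) :=
          PC_lin hT20 hy
      _ ≤ 13 * (1 + y) * ((B0 + C) * (T * Real.log T)) := by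
          refine mul_le_mul_of_nonneg_left ?_ (by positivity)
          linarith
      _ = Xf T * (13 * (B0 + C) * (2 * Real.pi) * (1 + y)) := by
          unfold Xf
          field_simp

/-- **cumulative rigidity**, when almost all zeros are on the line -/
theorem rigid_cum (hl : Onl) {s C c a0 : ℝ} (hs : s = 1 ∨ s = -1) (hC : 0 ≤ C) (hc : 0 < c)
    (ha0 : 0 < a0)
    (hyp : ∀ a, a0 ≤ a → ∀ ε, 0 < ε → ∀ᶠ T in atTop, -(C * Real.exp (-(c * a))) - ε ≤
      s * (Aa T a - (1 + 2 * gp a))) :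
    ∀ x, Tendsto (fun T => Aa T x) atTop (𝓝 (AG x)) := by
  obtain ⟨C0, T0, hT0, hb⟩ := Aa_linU
  refine rigidC (κ := 1 / 2) (by norm_num) (T0 := T0) (fun T hT => Aa_mono (by linarith))
    (fun T y hy => Aa_neg T y hy) hb (fun ε hε => Aa_diag hε) (fun K hK h hh => ?_)
    le_rfl hs hC hc ha0 hyp
  have h1 := (onl_lim hl (by norm_num) le_rfl (OT_Kav hK hh)).neg
  rw [AG_mont hK (by norm_num) hh]
  have e : mo (Kav K h) = mont (Kav K h) := by
    rw [mo_eq (OT_Kav hK hh) (by norm_num), bl_Kav hK hh, mont_fav hK (by norm_num) hh]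
  rw [e] at h1
  refine h1.congr fun T => ?_
  rw [Aa_int hK hh, bl_Kav hK hh]
  rw [div_eq_inv_mul]

end Q241.HF
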