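import Pool.Agent.Q241.OP.Fin8
import Pool.Agent.Q241.HF.Lin

/-! # Either half of the pair correlation conjecture at large distances -/

set_option autoImplicit false

open MeasureTheory Filter Topology Set

namespace Q241.HF

open H370 TH803TW Pool.Agent.Y744
open Q241.OP hiding Mont Low
open Q241.OP.G (zeros mult N F X Mont intF)

/-- the number of ordered pairs of zeros with ordinates in `[0, T]` whose normalised difference of
ordinates lies in `(0, β]` -/
noncomputable def N0 (T β : ℝ) : ℕ :=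
  ∑ᶠ p ∈ {p : ℂ × ℂ | p.1 ∈ zeros T ∧ p.2 ∈ zeros T ∧
    0 < (p.1.im - p.2.im) * Real.log T / (2 * Real.pi) ∧
    (p.1.im - p.2.im) * Real.log T / (2 * Real.pi) ≤ β}, mult p.1 * mult p.2

/-- the number of ordered pairs of zeros with the same ordinate in `(0, T]` -/
noncomputable def D0 (T : ℝ) : ℕ :=
  ∑ᶠ p ∈ {p : ℂ × ℂ | p.1 ∈ zeros T ∧ p.2 ∈ zeros T ∧ 0 < p.1.im ∧ p.1.im = p.2.im},
    mult p.1 * mult p.2

lemma N0_eq {m : ℝ} (hm : ∀ s ∈ ZZ, 0 < s.im → m ≤ s.im) {T β : ℝ} (hT : 1 < T)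
    (hb : 2 * Real.pi * β / Real.log T < m) :
    (N0 T β : ℝ) = PC T (Ioc 0 β) := by
  classical
  have hlog : 0 < Real.log T := Real.log_pos hT
  have hpi := Real.pi_pos
  have e : {p : ℂ × ℂ | p.1 ∈ zeros T ∧ p.2 ∈ zeros T ∧
      0 < (p.1.im - p.2.im) * Real.log T / (2 * Real.pi) ∧
      (p.1.im - p.2.im) * Real.log T / (2 * Real.pi) ≤ β} =
      ↑((Zt T ×ˢ Zt T).filter (fun p => dd T p.1 p.2 ∈ Ioc 0 β)) := by
    ext p
    rw [Finset.mem_coe, Finset.mem_filter, Finset.mem_product, mem_Zt, mem_Zt]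
    constructor
    · rintro ⟨⟨h1, h2, h3, h4, h5⟩, ⟨k1, k2, k3, k4, k5⟩, h6, h7⟩
      have h9 : 0 < p.1.im - p.2.im := by
        by_contra hc
        push Not at hc
        have : (p.1.im - p.2.im) * Real.log T / (2 * Real.pi) ≤ 0 :=
          div_nonpos_of_nonpos_of_nonneg (mul_nonpos_of_nonpos_of_nonneg hc hlog.le) (by positivity)
        linarith
      have h10 : p.1.im - p.2.im ≤ 2 * Real.pi * β / Real.log T := by
        rw [le_div_iff₀ hlog]
        rw [div_le_iff₀ (by positivity)] at h7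
        linarith
      have h11 := hm _ (show p.1 ∈ ZZ from ⟨h1, h2, h3⟩) (by linarith)
      exact ⟨⟨⟨h2, h3, by linarith, h5, h1⟩, ⟨k2, k3, by linarith, k5, k1⟩⟩, h6, h7⟩
    · rintro ⟨⟨⟨h1, h2, h3, h4, h5⟩, ⟨k1, k2, k3, k4, k5⟩⟩, h6, h7⟩
      exact ⟨⟨h5, h1, h2, h3.le, h4⟩, ⟨k5, k1, k2, k3.le, k4⟩, h6, h7⟩
  unfold N0
  rw [e, finsum_mem_coe_finset]
  push_cast
  rw [Finset.sum_filter, Finset.sum_product]
  unfold PC
  refine Finset.sum_congr rfl fun s _ => Finset.sum_congr rfl fun s' _ => ?_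
  by_cases h : dd T s s' ∈ Ioc 0 β
  · rw [if_pos h, Set.indicator_of_mem h, mul_one]
    rfl
  · rw [if_neg h, Set.indicator_of_notMem h, mul_zero]

lemma D0_eq {T : ℝ} (hT : 1 < T) : (D0 T : ℝ) = Xf T * Aa T 0 := by
  classical
  have hlog : 0 < Real.log T := Real.log_pos hT
  have hpi := Real.pi_pos
  have hX := Xf_pos hT
  have e : {p : ℂ × ℂ | p.1 ∈ zeros T ∧ p.2 ∈ zeros T ∧ 0 < p.1.im ∧ p.1.im = p.2.im} =
      ↑((Zt T ×ˢ Zt T).filter (fun p => dd T p.1 p.2 ∈ {x : ℝ | |x| ≤ 0})) := by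
    ext p
    rw [Finset.mem_coe, Finset.mem_filter, Finset.mem_product, mem_Zt, mem_Zt]
    constructor
    · rintro ⟨⟨h1, h2, h3, h4, h5⟩, ⟨k1, k2, k3, k4, k5⟩, h6, h7⟩
      refine ⟨⟨⟨h2, h3, h6, h5, h1⟩, ⟨k2, k3, by linarith, k5, k1⟩⟩, ?_⟩
      show |dd T p.1 p.2| ≤ 0
      have h8 : dd T p.1 p.2 = 0 := by
        unfold dd
        rw [h7, sub_self, zero_mul, zero_div]
      rw [h8, abs_zero]
    · rintro ⟨⟨⟨h1, h2, h3, h4, h5⟩, ⟨k1, k2, k3, k4, k5⟩⟩, h6⟩
      refine ⟨⟨h5, h1, h2, h3.le, h4⟩, ⟨k5, k1, k2, k3.le, k4⟩, h3, ?_⟩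
      have h7 : |dd T p.1 p.2| ≤ 0 := h6
      rw [abs_nonpos_iff] at h7
      unfold dd at h7
      rw [div_eq_zero_iff] at h7
      rcases h7 with h7 | h7
      · rcases mul_eq_zero.1 h7 with h8 | h8
        · linarith
        · exact absurd h8 hlog.ne'
      · exact absurd h7 (by positivity)
  unfold D0 Aa
  rw [e, finsum_mem_coe_finset, mul_inv_cancel_left₀ hX.ne']
  push_cast
  rw [Finset.sum_filter, Finset.sum_product]
  unfold PC
  refine Finset.sum_congr rfl fun s _ => Finset.sum_congr rfl fun s' _ => ?_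
  by_cases h : dd T s s' ∈ {x : ℝ | |x| ≤ 0}
  · rw [if_pos h, Set.indicator_of_mem h, mul_one]
    rfl
  · rw [if_neg h, Set.indicator_of_notMem h, mul_zero]

lemma N0_Dn {β : ℝ} (hβ : 0 ≤ β) : ∀ᶠ T : ℝ in atTop, (N0 T β : ℝ) = X T * Dn T β / 2 := by
  obtain ⟨m, hm0, hm⟩ := low_zero
  have h1 : Tendsto (fun T : ℝ => 2 * Real.pi * β / Real.log T) atTop (𝓝 0) :=
    Tendsto.div_atTop tendsto_const_nhds Real.tendsto_log_atTop
  filter_upwards [(tendsto_order.1 h1).2 m hm0, eventually_gt_atTop (1 : ℝ)] with T h2 hT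
  have hX : 0 < X T := Xf_pos hT
  have e : Xf T = X T := rfl
  rw [N0_eq hm hT h2, Dn_eq hβ, e]
  field_simp

/-- the lower half for large distances, with an exponentially small loss -/
def LowExp : Prop := ∃ C c A : ℝ, 0 < c ∧ ∀ β : ℝ, A ≤ β → ∀ ε : ℝ, 0 < ε → ∀ᶠ T : ℝ in atTop,
  ((∫ u in (0 : ℝ)..β, F u) - C * Real.exp (-(c * β)) - ε) * X T ≤ N0 T β

/-- the upper half for large distances, with an exponentially small loss -/
def UpExp : Prop := ∃ C c A : ℝ, 0 < c ∧ ∀ β : ℝ, A ≤ β → ∀ ε : ℝ, 0 < ε → ∀ᶠ T : ℝ in atTop,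
  (N0 T β : ℝ) ≤ ((∫ u in (0 : ℝ)..β, F u) + C * Real.exp (-(c * β)) + ε) * X T

/-- the number of pairs of zeros with the same ordinate is at most `(1 + o(1)) X(T)` -/
def Diag : Prop := ∀ ε : ℝ, 0 < ε → ∀ᶠ T : ℝ in atTop, (D0 T : ℝ) ≤ (1 + ε) * X T

lemma Diag_iff : Diag ↔ ∀ ε : ℝ, 0 < ε → ∀ᶠ T in atTop, Aa T 0 ≤ 1 + ε := by
  constructor
  · intro h ε hε
    filter_upwards [h ε hε, eventually_gt_atTop (1 : ℝ)] with T h1 hT
    have hX : 0 < Xf T := Xf_pos hT
    rw [D0_eq hT] at h1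
    have h2 : Xf T * Aa T 0 ≤ (1 + ε) * Xf T := h1
    rw [mul_comm (1 + ε)] at h2
    exact le_of_mul_le_mul_left h2 hX
  · intro h ε hε
    filter_upwards [h ε hε, eventually_gt_atTop (1 : ℝ)] with T h1 hT
    have hX : 0 < Xf T := Xf_pos hT
    rw [D0_eq hT]
    show Xf T * Aa T 0 ≤ (1 + ε) * Xf T
    rw [mul_comm (1 + ε)]
    exact mul_le_mul_of_nonneg_left h1 hX.le

/-- everything follows from the limit of the counting function -/
lemma all_of (h : ∀ x, Tendsto (fun T => Aa T x) atTop (𝓝 (AG x))) :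
    Mont ∧ Good ∧ Diag ∧ LowExp ∧ UpExp := by
  have h0 : ∀ ε : ℝ, 0 < ε → ∀ᶠ T in atTop, Aa T 0 ≤ 1 + ε := by
    intro ε hε
    have e : AG 0 = 1 := by unfold AG; rw [if_neg (lt_irrefl _), gp_zero]; ring
    have h1 := h 0
    rw [e] at h1
    exact ((tendsto_order.1 h1).2 (1 + ε) (by linarith)).mono fun T hT => hT.le
  have hD : ∀ β : ℝ, 1 ≤ β → Tendsto (fun T => Dn T β) atTop (𝓝 (2 * gp β)) := by
    intro β hβ
    have h1 := (h β).sub (h 0)
    have e : AG β - AG 0 = 2 * gp β := by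
      unfold AG
      rw [if_neg (by linarith), if_neg (lt_irrefl _), gp_zero]
      ring
    rw [e] at h1
    exact h1
  refine ⟨Q241.OP.G.Mont_of h, good_of h0, Diag_iff.2 h0, ⟨0, 1, 1, one_pos, fun β hβ ε hε => ?_⟩,
    ⟨0, 1, 1, one_pos, fun β hβ ε hε => ?_⟩⟩
  · filter_upwards [(tendsto_order.1 (hD β hβ)).1 (2 * gp β - ε) (by linarith),
      N0_Dn (β := β) (by linarith), eventually_gt_atTop (1 : ℝ)] with T h1 h2 hT
    have hX : 0 < X T := Xf_pos hT
    rw [h2, intF, gp_zero]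
    nlinarith
  · filter_upwards [(tendsto_order.1 (hD β hβ)).2 (2 * gp β + ε) (by linarith),
      N0_Dn (β := β) (by linarith), eventually_gt_atTop (1 : ℝ)] with T h1 h2 hT
    have hX : 0 < X T := Xf_pos hT
    rw [h2, intF, gp_zero]
    nlinarith

/-- from the windows of the problem to the counting function -/
lemma Aa_of_Mont (h : Mont) : ∀ x, Tendsto (fun T => Aa T x) atTop (𝓝 (AG x)) := by
  have hlow : ∀ α β : ℝ, 0 < α → α < β → Q241.OP.G.Low α β (∫ u in α..β, F u) :=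
    fun α β hα hαβ => Q241.OP.G.low_of hα hαβ le_rfl (h α β hα hαβ)
  have hD : ∀ y, 0 < y → ∀ ε : ℝ, 0 < ε → ∀ᶠ T in atTop, 2 * gp y - ε ≤ Dn T y := by
    intro y hy ε hε
    set α : ℝ := min (ε / 4) (y / 2) with hα
    have hα0 : 0 < α := by positivity
    have hαε : α ≤ ε / 4 := min_le_left _ _
    have hαy : α < y := (min_le_right _ _).trans_lt (by linarith)
    filter_upwards [Q241.OP.G.Low_Nr hα0 (hlow α y hα0 hαy) (ε / 4) (by positivity),
      eventually_gt_atTop (1 : ℝ)] with T h1 hT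
    have h2 := Q241.OP.G.Dn_ge hT hα0 hy.le
    have h3 := gp_le hα0.le
    rw [intF] at h1
    linarith
  have hone : ∀ ε : ℝ, 0 < ε → ∀ᶠ T in atTop, Aa T 0 ≤ 1 + ε := by
    intro ε hε
    have h1 := diag_bound (η := 0) le_rfl (fun ε hε => ⟨1, fun y hy => by
      filter_upwards [hD y (by linarith) ε hε] with T hT
      linarith⟩) ε hε
    filter_upwards [h1] with T hT
    linarith
  intro x
  rcases lt_trichotomy x 0 with hx | rfl | hx
  · have e : AG x = 0 := by unfold AG; rw [if_pos hx]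
    rw [e]
    refine tendsto_const_nhds.congr fun T => (Aa_neg T x hx).symm
  · have e : AG 0 = 1 := by unfold AG; rw [if_neg (lt_irrefl _), gp_zero]; ring
    rw [e]
    exact diag_lim hone
  · have h1 := (closure hD x hx).add (diag_lim hone)
    have e : AG x = 2 * gp x + 1 := by unfold AG; rw [if_neg (by linarith)]; ring
    rw [e]
    refine h1.congr fun T => ?_
    unfold Dn
    ring

lemma exp_small (C : ℝ) {c ε : ℝ} (hc : 0 < c) (hε : 0 < ε) :
    ∃ a0 : ℝ, ∀ y, a0 ≤ y → C * Real.exp (-(c * y)) ≤ ε := by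
  have h1 : Tendsto (fun y : ℝ => C * Real.exp (-(c * y))) atTop (𝓝 (C * 0)) := by
    refine Tendsto.const_mul C (Real.tendsto_exp_atBot.comp ?_)
    exact tendsto_neg_atTop_atBot.comp (Tendsto.const_mul_atTop hc tendsto_id)
  rw [mul_zero] at h1
  obtain ⟨a0, h⟩ := eventually_atTop.1 ((tendsto_order.1 h1).2 ε hε)
  exact ⟨a0, fun y hy => (h y hy).le⟩

lemma low_all (h : LowExp) : ∀ x, Tendsto (fun T => Aa T x) atTop (𝓝 (AG x)) := by
  obtain ⟨C, c, A, hc, h⟩ := h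
  set C' : ℝ := max C 0 with hC'
  set a0 : ℝ := max A 1 with ha0
  have hC'0 : 0 ≤ C' := le_max_right _ _
  have ha00 : 0 < a0 := lt_max_of_lt_right one_pos
  have hDn : ∀ y, a0 ≤ y → ∀ ε : ℝ, 0 < ε → ∀ᶠ T in atTop,
      2 * gp y - 2 * C' * Real.exp (-(c * y)) - ε ≤ Dn T y := by
    intro y hy ε hε
    have hy0 : 0 < y := ha00.trans_le hy
    filter_upwards [h y ((le_max_left _ _).trans hy) (ε / 2) (by positivity), N0_Dn hy0.le,
      eventually_gt_atTop (1 : ℝ)] with T h1 h2 hT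
    have hX : 0 < X T := Xf_pos hT
    rw [h2, intF, gp_zero] at h1
    have h3 : (gp y - 0 - C * Real.exp (-(c * y)) - ε / 2) ≤ Dn T y / 2 := by
      refine le_of_mul_le_mul_right ?_ hX
      linarith
    have h4 : C * Real.exp (-(c * y)) ≤ C' * Real.exp (-(c * y)) :=
      mul_le_mul_of_nonneg_right (le_max_left _ _) (Real.exp_pos _).le
    linarith
  have hone : ∀ ε : ℝ, 0 < ε → ∀ᶠ T in atTop, Aa T 0 ≤ 1 + ε := by
    intro ε hε
    have h1 := diag_bound (η := 0) le_rfl (fun ε hε => by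
      obtain ⟨b, hb⟩ := exp_small (2 * C') hc (ε := ε / 2) (by positivity)
      refine ⟨max a0 b, fun y hy => ?_⟩
      filter_upwards [hDn y ((le_max_left _ _).trans hy) (ε / 2) (by positivity)] with T hT
      have := hb y ((le_max_right _ _).trans hy)
      linarith) ε hε
    filter_upwards [h1] with T hT
    linarith
  refine rigid_cum (onl_of_diag hone) (s := 1) (C := 2 * C') (c := c) (a0 := a0) (Or.inl rfl)
    (by positivity) hc ha00 fun a ha ε hε => ?_
  filter_upwards [hDn a ha (ε / 2) (by positivity), Aa_diag (ε := ε / 2) (by positivity)]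
    with T h1 h2
  unfold Dn at h1
  linarith

lemma up_all (hd : Diag) (h : UpExp) : ∀ x, Tendsto (fun T => Aa T x) atTop (𝓝 (AG x)) := by
  obtain ⟨C, c, A, hc, h⟩ := h
  set C' : ℝ := max C 0 with hC'
  set a0 : ℝ := max A 1 with ha0
  have hC'0 : 0 ≤ C' := le_max_right _ _
  have ha00 : 0 < a0 := lt_max_of_lt_right one_pos
  have hone := Diag_iff.1 hd
  refine rigid_cum (onl_of_diag hone) (s := -1) (C := 2 * C') (c := c) (a0 := a0) (Or.inr rfl)
    (by positivity) hc ha00 fun a ha ε hε => ?_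
  have hy0 : 0 < a := ha00.trans_le ha
  filter_upwards [h a ((le_max_left _ _).trans ha) (ε / 4) (by positivity), N0_Dn hy0.le,
    eventually_gt_atTop (1 : ℝ), hone (ε / 2) (by positivity)] with T h1 h2 hT h5
  have hX : 0 < X T := Xf_pos hT
  rw [h2, intF, gp_zero] at h1
  have h3 : Dn T a / 2 ≤ (gp a - 0 + C * Real.exp (-(c * a)) + ε / 4) := by
    refine le_of_mul_le_mul_right ?_ hX
    linarith
  have h4 : C * Real.exp (-(c * a)) ≤ C' * Real.exp (-(c * a)) :=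
    mul_le_mul_of_nonneg_right (le_max_left _ _) (Real.exp_pos _).le
  unfold Dn at h3
  linarith

/-- **main theorem** -/
theorem main : (Mont ↔ LowExp) ∧ (Mont ↔ Diag ∧ UpExp) ∧ (Mont → Good) :=
  ⟨⟨fun h => (all_of (Aa_of_Mont h)).2.2.2.1, fun h => (all_of (low_all h)).1⟩,
    ⟨fun h => ⟨(all_of (Aa_of_Mont h)).2.2.1, (all_of (Aa_of_Mont h)).2.2.2.2⟩,
      fun h => (all_of (up_all h.1 h.2)).1⟩,
    fun h => (all_of (Aa_of_Mont h)).2.1⟩

end Q241.HF
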